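import Mathlib

set_option autoImplicit false

open Finset Filter Topology

namespace Pool.Agent.Results.MP_5c423c_lc.SemiSynchronousRing

/-- The snapshot of sensor `i`, in its own orientation `o = ±1`, when the positions are
`x : ℤ → ℝ` (lifted to the universal cover of the ring: `x (i + n) = x i + L`): the signed
distances, at most `V` in absolute value, at which it sees sensors. -/
def snap (V : ℝ) (x : ℤ → ℝ) (i : ℤ) (o : ℝ) : Set ℝ :=
  {t | ∃ j : ℤ, t = o * (x j - x i) ∧ |x j - x i| ≤ V}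

/-- An SSYNC execution of the algorithm `A` (a map from snapshots to displacements, both in the
sensor's own orientation) by `n` sensors on a ring of length `L` with visibility range `V`.
A move may be stopped early, but then covers at least the distance `δ`. -/
structure Execution (n : ℕ) (L V δ : ℝ) (A : Set ℝ → ℝ) where
  /-- position of sensor `i mod n` at time `t`, lifted to the real line -/
  X : ℕ → ℤ → ℝ
  /-- orientation of sensor `i` -/
  o : ℤ → ℝ
  /-- sensor `i` is active at time `t` -/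
  act : ℕ → ℤ → Prop
  X_per : ∀ t i, X t (i + n) = X t i + L
  o_per : ∀ i, o (i + n) = o i
  act_per : ∀ t i, act t (i + n) ↔ act t i
  o_pm : ∀ i, o i = 1 ∨ o i = -1
  /-- the sensors start at distinct points, `s_{i+1}` following `s_i` -/
  init : StrictMono (X 0)
  act_nonempty : ∀ t, ∃ i, act t i
  fair : ∀ i T, ∃ t, T ≤ t ∧ act t i
  stay : ∀ t i, ¬ act t i → X (t + 1) i = X t i
  move : ∀ t i, act t i → ∃ μ : ℝ, 0 ≤ μ ∧ μ ≤ 1 ∧
    X (t + 1) i = X t i + μ * (o i * A (snap V (X t) i (o i))) ∧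
    (μ = 1 ∨ δ ≤ μ * |A (snap V (X t) i (o i))|)

/-- Distance to the nearest visible sensor in the positive direction (`V` if there is none). -/
noncomputable def rt (V : ℝ) (S : Set ℝ) : ℝ := sInf ({t | t ∈ S ∧ 0 < t} ∪ {V})

/-- Distance to the nearest visible sensor in the negative direction (`V` if there is none). -/
noncomputable def lf (V : ℝ) (S : Set ℝ) : ℝ := sInf ({t | -t ∈ S ∧ 0 < t} ∪ {V})

/-- The algorithm: move by a quarter of the difference of the two distances. -/
noncomputable def alg (V : ℝ) (S : Set ℝ) : ℝ := (rt V S - lf V S) / 4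

section snapshots

variable {V : ℝ} {x : ℤ → ℝ}

theorem rt_snap (hV : 0 < V) (hx : StrictMono x) (i : ℤ) :
    rt V (snap V x i 1) = min (x (i + 1) - x i) V := by
  unfold rt
  have hg : 0 < x (i + 1) - x i := sub_pos.2 (hx (by omega))
  apply le_antisymm
  · rw [le_min_iff]
    have hb : BddBelow ({t | t ∈ snap V x i 1 ∧ 0 < t} ∪ {V}) := by
      refine ⟨0, ?_⟩
      rintro t (⟨-, ht⟩ | ht)
      · exact ht.le
      · rw [Set.mem_singleton_iff] at ht; rw [ht]; exact hV.le
    refine ⟨?_, csInf_le hb (Or.inr rfl)⟩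
    by_cases h : x (i + 1) - x i ≤ V
    · apply csInf_le hb
      left
      exact ⟨⟨i + 1, by ring, by rw [abs_of_pos hg]; exact h⟩, hg⟩
    · push Not at h
      exact (csInf_le hb (Or.inr rfl)).trans h.le
  · apply le_csInf ⟨V, Or.inr rfl⟩
    rintro t (⟨⟨j, hj, -⟩, ht⟩ | ht)
    · rw [one_mul] at hj
      have hji : i < j := by
        by_contra hc
        push Not at hc
        have := hx.monotone hc
        linarith
      have h2 : x (i + 1) ≤ x j := hx.monotone (by omega)
      exact (min_le_left _ _).trans (by linarith)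
    · rw [Set.mem_singleton_iff] at ht; rw [ht]; exact min_le_right _ _

theorem lf_snap (hV : 0 < V) (hx : StrictMono x) (i : ℤ) :
    lf V (snap V x i 1) = min (x i - x (i - 1)) V := by
  unfold lf
  have hg : 0 < x i - x (i - 1) := sub_pos.2 (hx (by omega))
  apply le_antisymm
  · rw [le_min_iff]
    have hb : BddBelow ({t | -t ∈ snap V x i 1 ∧ 0 < t} ∪ {V}) := by
      refine ⟨0, ?_⟩
      rintro t (⟨-, ht⟩ | ht)
      · exact ht.le
      · rw [Set.mem_singleton_iff] at ht; rw [ht]; exact hV.le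
    refine ⟨?_, csInf_le hb (Or.inr rfl)⟩
    by_cases h : x i - x (i - 1) ≤ V
    · apply csInf_le hb
      left
      exact ⟨⟨i - 1, by ring, by rw [abs_sub_comm, abs_of_pos hg]; exact h⟩, hg⟩
    · push Not at h
      exact (csInf_le hb (Or.inr rfl)).trans h.le
  · apply le_csInf ⟨V, Or.inr rfl⟩
    rintro t (⟨⟨j, hj, -⟩, ht⟩ | ht)
    · rw [one_mul] at hj
      have hji : j < i := by
        by_contra hc
        push Not at hc
        have := hx.monotone hc
        linarith
      have h2 : x j ≤ x (i - 1) := hx.monotone (by omega)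
      exact (min_le_left _ _).trans (by linarith)
    · rw [Set.mem_singleton_iff] at ht; rw [ht]; exact min_le_right _ _

theorem snap_neg (i : ℤ) : snap V x i (-1) = {t | -t ∈ snap V x i 1} := by
  ext t
  simp only [snap, Set.mem_ofPred_eq]
  constructor
  · rintro ⟨j, h1, h2⟩
    exact ⟨j, by rw [h1]; ring, h2⟩
  · rintro ⟨j, h1, h2⟩
    exact ⟨j, by linarith, h2⟩

theorem rt_neg (S : Set ℝ) : rt V {t | -t ∈ S} = lf V S := rfl

theorem lf_neg (S : Set ℝ) : lf V {t | -t ∈ S} = rt V S := by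
  unfold lf rt
  simp

theorem alg_snap (hV : 0 < V) (hx : StrictMono x) (i : ℤ) (o : ℝ) (ho : o = 1 ∨ o = -1) :
    o * alg V (snap V x i o) = (min (x (i + 1) - x i) V - min (x i - x (i - 1)) V) / 4 := by
  rcases ho with rfl | rfl
  · unfold alg
    rw [rt_snap hV hx, lf_snap hV hx]
    ring
  · unfold alg
    rw [snap_neg, rt_neg, lf_neg, rt_snap hV hx, lf_snap hV hx]
    ring

end snapshots

/-- A bounded sequence with steps tending to zero and all cluster points in a finite set
converges. -/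
theorem conv_of_finite {E : Type} [MetricSpace E] (G : ℕ → E) (K : Set E) (hK : IsCompact K)
    (hGK : ∀ t, G t ∈ K) (hstep : Tendsto (fun t => dist (G (t + 1)) (G t)) atTop (𝓝 0))
    (F : Set E) (hF : F.Finite)
    (hcl : ∀ (q : E) (φ : ℕ → ℕ), StrictMono φ → Tendsto (G ∘ φ) atTop (𝓝 q) → q ∈ F) :
    ∃ q, Tendsto G atTop (𝓝 q) := by
  classical
  -- separation of the points of `F`
  obtain ⟨ρ, hρ0, hρ⟩ : ∃ ρ > 0, ∀ p ∈ F, ∀ q ∈ F, dist p q < 3 * ρ → p = q := by
    set D : Finset ℝ := ((hF.toFinset ×ˢ hF.toFinset).filter (fun z => z.1 ≠ z.2)).image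
      (fun z => dist z.1 z.2) with hD
    by_cases hne : D.Nonempty
    · refine ⟨D.min' hne / 3, ?_, ?_⟩
      · have h1 : D.min' hne ∈ D := D.min'_mem hne
        obtain ⟨z, hz, hz2⟩ := Finset.mem_image.1 h1
        rw [Finset.mem_filter] at hz
        rw [← hz2]
        have := dist_pos.2 hz.2
        positivity
      · intro p hp q hq h
        by_contra hpq
        have h2 : dist p q ∈ D :=
          Finset.mem_image.2 ⟨(p, q), by simp [hp, hq, hpq], rfl⟩
        have h3 := D.min'_le _ h2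
        linarith
    · refine ⟨1, one_pos, fun p hp q hq _ => ?_⟩
      by_contra hpq
      apply hne
      exact ⟨dist p q, Finset.mem_image.2 ⟨(p, q), by simp [hp, hq, hpq], rfl⟩⟩
  -- eventually close to `F`
  have close : ∀ ε > 0, ∃ T, ∀ t ≥ T, ∃ q ∈ F, dist (G t) q < ε := by
    intro ε hε
    by_contra hc
    push Not at hc
    -- subsequence staying away
    have hfreq : ∃ᶠ t in atTop, ∀ q ∈ F, ε ≤ dist (G t) q := by
      rw [frequently_atTop]
      intro T
      obtain ⟨t, ht, h⟩ := hc T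
      exact ⟨t, ht, h⟩
    obtain ⟨φ, hφ, hφ2⟩ := extraction_of_frequently_atTop hfreq
    obtain ⟨q, -, ψ, hψ, hlim⟩ := hK.tendsto_subseq (fun t => hGK (φ t))
    have hq : q ∈ F := hcl q (φ ∘ ψ) (hφ.comp hψ) hlim
    obtain ⟨N, hN⟩ := (Metric.tendsto_atTop.1 hlim) ε hε
    have h1 := hN N le_rfl
    have h2 := hφ2 (ψ N) q hq
    simp only [Function.comp_apply] at h1
    linarith
  obtain ⟨T₁, hT₁⟩ := close ρ hρ0
  obtain ⟨T₂, hT₂⟩ := (Metric.tendsto_atTop.1 hstep) ρ hρ0
  set T := max T₁ T₂ with hT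
  obtain ⟨q, hq, hqT⟩ := hT₁ T (le_max_left _ _)
  have stay : ∀ t ≥ T, dist (G t) q < ρ := by
    intro t ht
    induction t, ht using Nat.le_induction with
    | base => exact hqT
    | succ t ht ih =>
      obtain ⟨q', hq', h1⟩ := hT₁ (t + 1) (by have := le_max_left T₁ T₂; omega)
      have h2 := hT₂ t (by have := le_max_right T₁ T₂; omega)
      rw [Real.dist_0_eq_abs, abs_of_nonneg dist_nonneg] at h2
      have h3 : dist q' q < 3 * ρ := by
        calc dist q' q ≤ dist q' (G (t + 1)) + dist (G (t + 1)) q := dist_triangle _ _ _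
          _ ≤ dist q' (G (t + 1)) + (dist (G (t + 1)) (G t) + dist (G t) q) := by
              linarith [dist_triangle (G (t + 1)) (G t) q]
          _ < ρ + (ρ + ρ) := by rw [dist_comm q']; linarith
          _ = 3 * ρ := by ring
      rw [← hρ q' hq' q hq h3]
      exact h1
  refine ⟨q, ?_⟩
  rw [Metric.tendsto_atTop]
  intro ε hε
  obtain ⟨T₃, hT₃⟩ := close (min ε ρ) (lt_min hε hρ0)
  refine ⟨max T T₃, fun t ht => ?_⟩
  obtain ⟨q', hq', h1⟩ := hT₃ t ((le_max_right _ _).trans ht)
  have h2 := stay t ((le_max_left _ _).trans ht)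
  have h3 : dist q' q < 3 * ρ := by
    calc dist q' q ≤ dist q' (G t) + dist (G t) q := dist_triangle _ _ _
      _ < ρ + ρ := by rw [dist_comm q']; linarith [min_le_right ε ρ]
      _ ≤ 3 * ρ := by linarith
  rw [← hρ q' hq' q hq h3]
  exact h1.trans_le (min_le_left _ _)

theorem emod_add (i n : ℤ) : i % n + i / n * n = i := by
  rw [mul_comm]; exact Int.emod_add_mul_ediv i n

theorem red (f : ℤ → ℝ) (n : ℤ) (hf : ∀ i, f (i + n) = f i) (i : ℤ) : f (i % n) = f i := by
  have hp : Function.Periodic f n := hf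
  have h2 := hp.int_mul (i / n) (i % n)
  rw [Int.cast_id, emod_add] at h2
  exact h2.symm

theorem sum_shift (n : ℕ) (f : ℤ → ℝ) (hf : ∀ i, f (i + n) = f i) :
    ∑ i ∈ range n, f ((i : ℤ) + 1) = ∑ i ∈ range n, f (i : ℤ) := by
  have h1 := Finset.sum_range_succ (fun i : ℕ => f (i : ℤ)) n
  have h2 := Finset.sum_range_succ' (fun i : ℕ => f (i : ℤ)) n
  have h3 : f (n : ℤ) = f 0 := by
    have := hf 0
    rwa [zero_add] at this
  push_cast at h2
  linarith

theorem sum_shift' (n : ℕ) (f : ℤ → ℝ) (hf : ∀ i, f (i + n) = f i) :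
    ∑ i ∈ range n, f ((i : ℤ) - 1) = ∑ i ∈ range n, f (i : ℤ) := by
  have h := sum_shift n (fun i => f (i - 1)) (fun i => by
    rw [show i + (n : ℤ) - 1 = (i - 1) + n by ring, hf])
  simp only [add_sub_cancel_right] at h
  exact h.symm

theorem clip_mul (x y V : ℝ) :
    0 ≤ (min x V - min y V) * (x - y) ∧ (min x V - min y V) * (x - y) ≤ (x - y) ^ 2 ∧
      |min x V - min y V| ≤ |x - y| := by
  rcases le_total x V with h1 | h1 <;> rcases le_total y V with h2 | h2 <;>
    simp only [min_eq_left, min_eq_right, h1, h2]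
  · exact ⟨by nlinarith, by nlinarith, le_rfl⟩
  · refine ⟨by nlinarith, by nlinarith, ?_⟩
    rw [abs_of_nonpos (by linarith), abs_of_nonpos (by linarith)]; linarith
  · refine ⟨by nlinarith, by nlinarith, ?_⟩
    rw [abs_of_nonneg (by linarith), abs_of_nonneg (by linarith)]; linarith
  · refine ⟨by nlinarith, by nlinarith, ?_⟩
    rw [sub_self, abs_zero]; positivity

section dynamics

variable {n : ℕ} {L V δ : ℝ} (e : Execution n L V δ (alg V))

/-- The gap following sensor `i` at time `t`. -/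
def gap (t : ℕ) (i : ℤ) : ℝ := e.X t (i + 1) - e.X t i

/-- The displacement of sensor `i` at time `t`. -/
def mv (t : ℕ) (i : ℤ) : ℝ := e.X (t + 1) i - e.X t i

theorem gap_per (t : ℕ) (i : ℤ) : gap e t (i + n) = gap e t i := by
  unfold gap
  have h := e.X_per t (i + 1)
  rw [show i + 1 + (n : ℤ) = i + n + 1 by ring] at h
  rw [h, e.X_per]
  ring

theorem mv_per (t : ℕ) (i : ℤ) : mv e t (i + n) = mv e t i := by
  unfold mv
  rw [e.X_per, e.X_per]
  ring

theorem gap_succ (t : ℕ) (i : ℤ) : gap e (t + 1) i = gap e t i + mv e t (i + 1) - mv e t i := by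
  unfold gap mv
  ring

/-- The displacement of an active sensor. -/
theorem mv_active (hV : 0 < V) (t : ℕ) (hm : StrictMono (e.X t)) (i : ℤ) (ha : e.act t i) :
    ∃ μ : ℝ, 0 ≤ μ ∧ μ ≤ 1 ∧
      mv e t i = μ * ((min (gap e t i) V - min (gap e t (i - 1)) V) / 4) ∧
      (μ = 1 ∨ δ ≤ μ * |(min (gap e t i) V - min (gap e t (i - 1)) V) / 4|) := by
  obtain ⟨μ, h0, h1, h2, h3⟩ := e.move t i ha
  have ho := e.o_pm i
  have hal := alg_snap hV hm i (e.o i) ho
  have hg : gap e t (i - 1) = e.X t i - e.X t (i - 1) := by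
    unfold gap; rw [sub_add_cancel]
  have hg2 : gap e t i = e.X t (i + 1) - e.X t i := rfl
  rw [← hg, ← hg2] at hal
  have habs : |alg V (snap V (e.X t) i (e.o i))| =
      |(min (gap e t i) V - min (gap e t (i - 1)) V) / 4| := by
    rw [← hal, abs_mul]
    rcases ho with h | h <;> simp [h]
  refine ⟨μ, h0, h1, ?_, ?_⟩
  · rw [← hal]
    unfold mv
    rw [h2]
    ring
  · rw [← habs]
    exact h3

theorem exists_theta (hV : 0 < V) (t : ℕ) (hm : StrictMono (e.X t)) :
    ∃ θ : ℤ → ℝ, (∀ i, 0 ≤ θ i) ∧ (∀ i, θ i ≤ 1 / 4) ∧ (∀ i, θ (i + n) = θ i) ∧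
      ∀ i, mv e t i = θ i * (gap e t i - gap e t (i - 1)) := by
  have key : ∀ i, 0 ≤ mv e t i * (gap e t i - gap e t (i - 1)) ∧
      mv e t i * (gap e t i - gap e t (i - 1)) ≤ (gap e t i - gap e t (i - 1)) ^ 2 / 4 ∧
      (gap e t i - gap e t (i - 1) = 0 → mv e t i = 0) := by
    intro i
    by_cases ha : e.act t i
    · obtain ⟨μ, h0, h1, h2, -⟩ := mv_active e hV t hm i ha
      obtain ⟨c1, c2, c3⟩ := clip_mul (gap e t i) (gap e t (i - 1)) V
      rw [h2]
      set P := (min (gap e t i) V - min (gap e t (i - 1)) V) with hP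
      set Q := gap e t i - gap e t (i - 1) with hQ
      refine ⟨?_, ?_, ?_⟩
      · have : μ * (P / 4) * Q = μ * (P * Q) / 4 := by ring
        rw [this]; positivity
      · have : μ * (P / 4) * Q = μ * (P * Q) / 4 := by ring
        rw [this]
        have h5 : μ * (P * Q) ≤ 1 * (P * Q) := mul_le_mul_of_nonneg_right h1 c1
        linarith
      · intro hz
        rw [hz, abs_zero] at c3
        have : P = 0 := abs_eq_zero.1 (le_antisymm c3 (abs_nonneg _))
        rw [this]; ring
    · have h0 : mv e t i = 0 := by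
        unfold mv; rw [e.stay t i ha, sub_self]
      rw [h0]
      refine ⟨by simp, ?_, fun _ => rfl⟩
      rw [zero_mul]; positivity
  refine ⟨fun i => mv e t i / (gap e t i - gap e t (i - 1)), ?_, ?_, ?_, ?_⟩
  · intro i
    obtain ⟨h1, -, -⟩ := key i
    dsimp only
    by_cases hz : gap e t i - gap e t (i - 1) = 0
    · rw [hz, div_zero]
    · rw [← mul_div_mul_right _ _ hz]
      apply div_nonneg h1 (mul_self_nonneg _)
  · intro i
    obtain ⟨-, h1, -⟩ := key i
    dsimp only
    by_cases hz : gap e t i - gap e t (i - 1) = 0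
    · rw [hz, div_zero]; norm_num
    · rw [← mul_div_mul_right _ _ hz]
      have hpos : 0 < (gap e t i - gap e t (i - 1)) * (gap e t i - gap e t (i - 1)) :=
        mul_self_pos.2 hz
      rw [div_le_iff₀ hpos]
      nlinarith
  · intro i
    dsimp only
    rw [mv_per, gap_per, show i + (n : ℤ) - 1 = (i - 1) + n by ring, gap_per]
  · intro i
    obtain ⟨-, -, h1⟩ := key i
    dsimp only
    by_cases hz : gap e t i - gap e t (i - 1) = 0
    · rw [h1 hz]; simp
    · field_simp

theorem gap_convex (hV : 0 < V) (t : ℕ) (hm : StrictMono (e.X t)) :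
    ∃ θ : ℤ → ℝ, (∀ i, 0 ≤ θ i) ∧ (∀ i, θ i ≤ 1 / 4) ∧ (∀ i, θ (i + n) = θ i) ∧
      (∀ i, mv e t i = θ i * (gap e t i - gap e t (i - 1))) ∧
      ∀ i, gap e (t + 1) i = (1 - θ i - θ (i + 1)) * gap e t i + θ (i + 1) * gap e t (i + 1)
        + θ i * gap e t (i - 1) := by
  obtain ⟨θ, h0, h1, h2, h3⟩ := exists_theta e hV t hm
  refine ⟨θ, h0, h1, h2, h3, fun i => ?_⟩
  rw [gap_succ, h3, h3, add_sub_cancel_right]
  ring

theorem mono (hV : 0 < V) (t : ℕ) : StrictMono (e.X t) := by
  induction t with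
  | zero => exact e.init
  | succ t ih =>
    obtain ⟨θ, h0, h1, -, -, h4⟩ := gap_convex e hV t ih
    apply strictMono_int_of_lt_succ
    intro i
    have hg : ∀ j, 0 < gap e t j := fun j => sub_pos.2 (ih (by omega))
    have h5 : 0 < gap e (t + 1) i := by
      rw [h4]
      have a1 := h0 i
      have a2 := h0 (i + 1)
      have a3 := h1 i
      have a4 := h1 (i + 1)
      have b1 := hg i
      have b2 := hg (i + 1)
      have b3 := hg (i - 1)
      have c1 : 0 < (1 - θ i - θ (i + 1)) * gap e t i := mul_pos (by linarith) b1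
      have c2 : 0 ≤ θ (i + 1) * gap e t (i + 1) := mul_nonneg a2 b2.le
      have c3 : 0 ≤ θ i * gap e t (i - 1) := mul_nonneg a1 b3.le
      linarith
    exact sub_pos.1 h5

theorem gap_pos (hV : 0 < V) (t : ℕ) (i : ℤ) : 0 < gap e t i :=
  sub_pos.2 (mono e hV t (by omega))

theorem gap_sum (t : ℕ) : ∑ i ∈ range n, gap e t (i : ℤ) = L := by
  have h : ∀ m : ℕ, ∑ i ∈ range m, gap e t (i : ℤ) = e.X t m - e.X t 0 := by
    intro m
    induction m with
    | zero => simp
    | succ m ih =>
      rw [Finset.sum_range_succ, ih]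
      unfold gap
      push_cast
      ring
  rw [h]
  have := e.X_per t 0
  rw [zero_add] at this
  rw [this]
  ring

/-- The sum of the convex functions `max (r - ·) 0` of the gaps does not increase. -/
theorem psi_antitone (hV : 0 < V) (r : ℝ) :
    Antitone (fun t => ∑ i ∈ range n, max (r - gap e t (i : ℤ)) 0) := by
  apply antitone_nat_of_succ_le
  intro t
  obtain ⟨θ, h0, h1, h2, -, h4⟩ := gap_convex e hV t (mono e hV t)
  set ψ : ℤ → ℝ := fun i => max (r - gap e t i) 0 with hψ
  have hψ0 : ∀ i, 0 ≤ ψ i := fun i => le_max_right _ _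
  have hψ1 : ∀ i, r - gap e t i ≤ ψ i := fun i => le_max_left _ _
  have hψp : ∀ i, ψ (i + n) = ψ i := fun i => by rw [hψ]; dsimp only; rw [gap_per]
  have hb : ∀ i : ℤ, max (r - gap e (t + 1) i) 0 ≤
      (1 - θ i - θ (i + 1)) * ψ i + θ (i + 1) * ψ (i + 1) + θ i * ψ (i - 1) := by
    intro i
    have e1 : 0 ≤ 1 - θ i - θ (i + 1) := by linarith [h1 i, h1 (i + 1)]
    apply max_le
    · rw [h4]
      have c1 := mul_le_mul_of_nonneg_left (hψ1 i) e1
      have c2 := mul_le_mul_of_nonneg_left (hψ1 (i + 1)) (h0 (i + 1))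
      have c3 := mul_le_mul_of_nonneg_left (hψ1 (i - 1)) (h0 i)
      linarith
    · have c1 := mul_nonneg e1 (hψ0 i)
      have c2 := mul_nonneg (h0 (i + 1)) (hψ0 (i + 1))
      have c3 := mul_nonneg (h0 i) (hψ0 (i - 1))
      linarith
  calc ∑ i ∈ range n, max (r - gap e (t + 1) (i : ℤ)) 0
      ≤ ∑ i ∈ range n, ((1 - θ i - θ ((i : ℤ) + 1)) * ψ i + θ ((i : ℤ) + 1) * ψ ((i : ℤ) + 1)
          + θ i * ψ ((i : ℤ) - 1)) := Finset.sum_le_sum (fun i _ => hb i)
    _ = ∑ i ∈ range n, ψ (i : ℤ) := by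
        have s1 := sum_shift n (fun i => θ i * ψ i) (fun i => by simp only [h2, hψp])
        have s2 := sum_shift n (fun i => θ i * ψ (i - 1)) (fun i => by
          simp only [h2]; rw [show i + (n : ℤ) - 1 = (i - 1) + n by ring, hψp])
        simp only [add_sub_cancel_right] at s2
        have e1 : ∀ i ∈ range n, (1 - θ (i : ℤ) - θ ((i : ℤ) + 1)) * ψ (i : ℤ)
            + θ ((i : ℤ) + 1) * ψ ((i : ℤ) + 1) + θ (i : ℤ) * ψ ((i : ℤ) - 1)
            = ψ (i : ℤ) - θ (i : ℤ) * ψ (i : ℤ) - θ ((i : ℤ) + 1) * ψ (i : ℤ)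
              + θ ((i : ℤ) + 1) * ψ ((i : ℤ) + 1) + θ (i : ℤ) * ψ ((i : ℤ) - 1) := by
          intro i _; ring
        rw [Finset.sum_congr rfl e1]
        simp only [Finset.sum_add_distrib, Finset.sum_sub_distrib]
        linarith

theorem sq_step (hV : 0 < V) (t : ℕ) :
    4 * ∑ i ∈ range n, mv e t (i : ℤ) ^ 2 ≤
      ∑ i ∈ range n, gap e t (i : ℤ) ^ 2 - ∑ i ∈ range n, gap e (t + 1) (i : ℤ) ^ 2 := by
  obtain ⟨θ, h0, h1, h2, h3, h4⟩ := gap_convex e hV t (mono e hV t)
  have s1 := sum_shift n (fun i => mv e t i ^ 2) (fun i => by simp only [mv_per])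
  have s2 := sum_shift n (fun i => gap e t (i - 1) * mv e t i) (fun i => by
    simp only [mv_per]; rw [show i + (n : ℤ) - 1 = (i - 1) + n by ring, gap_per])
  simp only [add_sub_cancel_right] at s2
  have e1 : ∀ i ∈ range n, gap e (t + 1) (i : ℤ) ^ 2 ≤ gap e t (i : ℤ) ^ 2
      + 2 * (gap e t (i : ℤ) * mv e t ((i : ℤ) + 1)) - 2 * (gap e t (i : ℤ) * mv e t (i : ℤ))
      + 2 * mv e t ((i : ℤ) + 1) ^ 2 + 2 * mv e t (i : ℤ) ^ 2 := by
    intro i _
    rw [gap_succ]
    nlinarith [sq_nonneg (mv e t ((i : ℤ) + 1) + mv e t (i : ℤ))]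
  have e2 : ∀ i ∈ range n, 4 * mv e t (i : ℤ) ^ 2 ≤
      gap e t (i : ℤ) * mv e t (i : ℤ) - gap e t ((i : ℤ) - 1) * mv e t (i : ℤ) := by
    intro i _
    have : gap e t (i : ℤ) * mv e t (i : ℤ) - gap e t ((i : ℤ) - 1) * mv e t (i : ℤ)
      = θ i * (gap e t (i : ℤ) - gap e t ((i : ℤ) - 1)) ^ 2 := by rw [h3]; ring
    rw [this, h3, mul_pow]
    have h5 : θ i ^ 2 ≤ θ i * (1 / 4) := by
      rw [sq]; exact mul_le_mul_of_nonneg_left (h1 i) (h0 i)
    nlinarith [mul_le_mul_of_nonneg_right h5 (sq_nonneg (gap e t (i : ℤ) - gap e t ((i : ℤ) - 1)))]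
  have f1 := Finset.sum_le_sum e1
  have f2 := Finset.sum_le_sum e2
  simp only [Finset.sum_add_distrib, Finset.sum_sub_distrib, ← Finset.mul_sum] at f1 f2
  linarith

theorem mv_tendsto (hV : 0 < V) (hn : 0 < n) (i : ℤ) :
    Tendsto (fun t => mv e t i) atTop (𝓝 0) := by
  set S : ℕ → ℝ := fun t => ∑ i ∈ range n, gap e t (i : ℤ) ^ 2 with hS
  have hSa : Antitone S := antitone_nat_of_succ_le (fun t => by
    have h := sq_step e hV t
    have : 0 ≤ ∑ i ∈ range n, mv e t (i : ℤ) ^ 2 := Finset.sum_nonneg (fun i _ => sq_nonneg _)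
    simp only [hS]
    linarith)
  have hSb : BddBelow (Set.range S) := ⟨0, by
    rintro _ ⟨t, rfl⟩
    exact Finset.sum_nonneg (fun i _ => sq_nonneg _)⟩
  have hS1 := tendsto_atTop_ciInf hSa hSb
  have hS2 := hS1.comp (tendsto_add_atTop_nat 1)
  have hS3 := hS1.sub hS2
  rw [sub_self] at hS3
  have hsq : Tendsto (fun t => mv e t i ^ 2) atTop (𝓝 0) := by
    refine squeeze_zero (fun t => sq_nonneg _) (fun t => ?_) hS3
    -- reduce `i` modulo `n`
    have hper : ∀ (k : ℤ) (j : ℤ), mv e t (j + k * n) = mv e t j := by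
      intro k j
      have hp : Function.Periodic (mv e t) (n : ℤ) := fun j => mv_per e t j
      have := hp.int_mul k j
      simpa [zsmul_eq_mul] using this
    have hj : mv e t i = mv e t (i % n) := by
      have := hper (i / n) (i % n)
      rw [emod_add] at this
      exact this
    have hn' : (0 : ℤ) < n := by exact_mod_cast hn
    obtain ⟨k, hk⟩ := Int.eq_ofNat_of_zero_le (Int.emod_nonneg i hn'.ne')
    have hk2 : k < n := by
      have := Int.emod_lt_of_pos i hn'
      omega
    rw [hj, hk]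
    have h1 := sq_step e hV t
    have h2 : mv e t (k : ℤ) ^ 2 ≤ ∑ i ∈ range n, mv e t (i : ℤ) ^ 2 :=
      Finset.single_le_sum (f := fun i : ℕ => mv e t (i : ℤ) ^ 2) (fun i _ => sq_nonneg _)
        (Finset.mem_range.2 hk2)
    have h3 : 0 ≤ mv e t (k : ℤ) ^ 2 := sq_nonneg _
    simp only [Function.comp_apply, hS]
    linarith
  have h5 := hsq.sqrt
  rw [Real.sqrt_zero] at h5
  have h6 : Tendsto (fun t => |mv e t i|) atTop (𝓝 0) := by
    refine h5.congr (fun t => ?_)
    exact Real.sqrt_sq_eq_abs _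
  exact tendsto_zero_iff_abs_tendsto_zero _ |>.2 h6

/-- Two vectors with the same sums `∑ max (r - ·) 0` have the same entries. -/
theorem same_entries (p q : Fin n → ℝ)
    (h : ∀ r : ℝ, ∑ i, max (r - p i) 0 = ∑ i, max (r - q i) 0) (i : Fin n) : ∃ j, q i = p j := by
  by_contra hc
  push Not at hc
  have hne : (Finset.univ : Finset (Fin n)).Nonempty := ⟨i, Finset.mem_univ _⟩
  obtain ⟨η, hη, hη2⟩ : ∃ η > 0, ∀ j, η ≤ |q i - p j| := by
    obtain ⟨j, -, hj⟩ := Finset.exists_min_image Finset.univ (fun j => |q i - p j|) hne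
    exact ⟨|q i - p j|, abs_pos.2 (sub_ne_zero.2 (hc j)), fun k => hj k (Finset.mem_univ _)⟩
  -- second difference at `q i` with step `η`
  have hp : ∀ j, max (q i + η - p j) 0 + max (q i - η - p j) 0 = 2 * max (q i - p j) 0 := by
    intro j
    have := hη2 j
    rcases le_abs.1 this with h1 | h1
    · rw [max_eq_left (by linarith), max_eq_left (by linarith), max_eq_left (by linarith)]
      ring
    · rw [max_eq_right (by linarith), max_eq_right (by linarith), max_eq_right (by linarith)]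
      ring
  have hq : ∀ j, 2 * max (q i - q j) 0 ≤ max (q i + η - q j) 0 + max (q i - η - q j) 0 := by
    intro j
    rcases le_total (q i - q j) 0 with h1 | h1
    · rw [max_eq_right h1]
      have a1 := le_max_right (q i + η - q j) 0
      have a2 := le_max_right (q i - η - q j) 0
      linarith
    · rw [max_eq_left h1]
      have a1 := le_max_left (q i + η - q j) 0
      have a2 := le_max_left (q i - η - q j) 0
      linarith
  have hq' : 2 * max (q i - q i) 0 < max (q i + η - q i) 0 + max (q i - η - q i) 0 := by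
    rw [sub_self, max_self]
    have a1 := le_max_left (q i + η - q i) 0
    have a2 := le_max_right (q i - η - q i) 0
    linarith
  have s1 : ∑ j, (max (q i + η - p j) 0 + max (q i - η - p j) 0)
      = ∑ j, 2 * max (q i - p j) 0 := Finset.sum_congr rfl (fun j _ => hp j)
  have s2 : ∑ j, 2 * max (q i - q j) 0
      < ∑ j, (max (q i + η - q j) 0 + max (q i - η - q j) 0) :=
    Finset.sum_lt_sum (fun j _ => hq j) ⟨i, Finset.mem_univ _, hq'⟩
  rw [Finset.sum_add_distrib, ← Finset.mul_sum] at s1 s2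
  have t1 := h (q i + η)
  have t2 := h (q i - η)
  have t3 := h (q i)
  linarith

theorem gap_le (hV : 0 < V) (t : ℕ) (i : Fin n) : gap e t (i : ℤ) ≤ L := by
  have h := gap_sum e t
  have := Finset.single_le_sum (f := fun i : ℕ => gap e t (i : ℤ))
    (fun i _ => (gap_pos e hV t i).le) (Finset.mem_range.2 i.2)
  linarith

theorem gap_converges (hV : 0 < V) (hn : 0 < n) :
    ∃ q : Fin n → ℝ, Tendsto (fun t (i : Fin n) => gap e t ((i : ℕ) : ℤ)) atTop (𝓝 q) := by
  set G : ℕ → (Fin n → ℝ) := fun t i => gap e t ((i : ℕ) : ℤ) with hG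
  set K : Set (Fin n → ℝ) := Set.Icc 0 (fun _ => L) with hK
  have hKc : IsCompact K := isCompact_Icc
  have hGK : ∀ t, G t ∈ K := by
    intro t
    constructor
    · intro i; exact (gap_pos e hV t _).le
    · intro i; exact gap_le e hV t i
  -- the sums converge
  have hpsi : ∀ r : ℝ, ∃ c : ℝ, Tendsto (fun t => ∑ i : Fin n, max (r - G t i) 0) atTop (𝓝 c) := by
    intro r
    have h1 := psi_antitone e hV r
    have hb : BddBelow (Set.range (fun t => ∑ i ∈ range n, max (r - gap e t (i : ℤ)) 0)) :=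
      ⟨0, by
        rintro _ ⟨t, rfl⟩
        exact Finset.sum_nonneg (fun i _ => le_max_right _ _)⟩
    refine ⟨_, (tendsto_atTop_ciInf h1 hb).congr (fun t => ?_)⟩
    rw [Finset.sum_range]
  have hlim : ∀ (q : Fin n → ℝ) (φ : ℕ → ℕ), StrictMono φ → Tendsto (G ∘ φ) atTop (𝓝 q) →
      ∀ r c : ℝ, Tendsto (fun t => ∑ i : Fin n, max (r - G t i) 0) atTop (𝓝 c) →
        ∑ i, max (r - q i) 0 = c := by
    intro q φ hφ hq r c hc
    have h1 : Tendsto (fun t => ∑ i : Fin n, max (r - (G ∘ φ) t i) 0) atTop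
        (𝓝 (∑ i, max (r - q i) 0)) := by
      have hcont : Continuous (fun x : Fin n → ℝ => ∑ i, max (r - x i) 0) := by fun_prop
      exact (hcont.tendsto q).comp hq
    have h2 := hc.comp hφ.tendsto_atTop
    exact tendsto_nhds_unique h1 h2
  obtain ⟨p, -, φ, hφ, hp⟩ := hKc.tendsto_subseq hGK
  apply conv_of_finite G K hKc hGK ?_ {q | ∀ i, ∃ j, q i = p j} ?_ ?_
  · -- steps tend to zero
    have h1 : Tendsto (fun t => G (t + 1) - G t) atTop (𝓝 0) := by
      rw [tendsto_pi_nhds]
      intro i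
      have h2 := (mv_tendsto e hV hn ((i : ℕ) + 1 : ℤ)).sub (mv_tendsto e hV hn ((i : ℕ) : ℤ))
      rw [sub_zero] at h2
      refine h2.congr (fun t => ?_)
      simp only [hG, Pi.sub_apply]
      rw [gap_succ]
      ring
    have h3 := h1.norm
    rw [norm_zero] at h3
    refine h3.congr (fun t => ?_)
    rw [dist_eq_norm]
  · -- finiteness
    have : {q : Fin n → ℝ | ∀ i, ∃ j, q i = p j} ⊆ Set.pi Set.univ (fun _ => Set.range p) := by
      intro q hq i _
      obtain ⟨j, hj⟩ := hq i
      exact ⟨j, hj.symm⟩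
    exact (Set.Finite.pi (fun _ => Set.finite_range p)).subset this
  · intro q ψ hψ hq i
    refine same_entries p q (fun r => ?_) i
    obtain ⟨c, hc⟩ := hpsi r
    rw [hlim p φ hφ hp r c hc, hlim q ψ hψ hq r c hc]

theorem gap_limit (hV : 0 < V) (hn : 0 < n) (hδ : 0 < δ) (hL : L < n * V) (i : ℤ) :
    Tendsto (fun t => gap e t i) atTop (𝓝 (L / n)) := by
  obtain ⟨q, hq⟩ := gap_converges e hV hn
  have hn' : (0 : ℤ) < n := by exact_mod_cast hn
  -- limits of all gaps
  have hlim : ∀ j : ℤ, ∃ c, Tendsto (fun t => gap e t j) atTop (𝓝 c) := by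
    intro j
    obtain ⟨k, hk⟩ := Int.eq_ofNat_of_zero_le (Int.emod_nonneg j hn'.ne')
    have hk2 : k < n := by
      have := Int.emod_lt_of_pos j hn'
      omega
    refine ⟨q ⟨k, hk2⟩, ?_⟩
    have h1 := (tendsto_pi_nhds.1 hq) ⟨k, hk2⟩
    refine h1.congr (fun t => ?_)
    rw [← red (gap e t) n (gap_per e t) j, hk]
  choose c hc using hlim
  -- adjacent clipped limits agree
  have hadj : ∀ j : ℤ, min (c j) V = min (c (j - 1)) V := by
    intro j
    by_contra hne
    set a : ℝ := |min (c j) V - min (c (j - 1)) V| with ha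
    have ha0 : 0 < a := abs_pos.2 (sub_ne_zero.2 hne)
    have h1 : Tendsto (fun t => |min (gap e t j) V - min (gap e t (j - 1)) V|) atTop (𝓝 a) :=
      (((hc j).min tendsto_const_nhds).sub ((hc (j - 1)).min tendsto_const_nhds)).abs
    have h2 : ∀ᶠ t in atTop, a / 2 < |min (gap e t j) V - min (gap e t (j - 1)) V| :=
      h1.eventually (lt_mem_nhds (by linarith))
    have h3 : ∀ᶠ t in atTop, |mv e t j| < min δ (a / 8) := by
      have := (mv_tendsto e hV hn j).abs
      rw [abs_zero] at this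
      exact this.eventually (gt_mem_nhds (lt_min hδ (by linarith)))
    obtain ⟨T, hT⟩ := eventually_atTop.1 (h2.and h3)
    obtain ⟨t, ht, hact⟩ := e.fair j T
    obtain ⟨h4, h5⟩ := hT t ht
    obtain ⟨μ, m0, m1, m2, m3⟩ := mv_active e hV t (mono e hV t) j hact
    have h6 : |mv e t j| = μ * |(min (gap e t j) V - min (gap e t (j - 1)) V) / 4| := by
      rw [m2, abs_mul, abs_of_nonneg m0]
    rcases m3 with h | h
    · rw [h, one_mul, abs_div, abs_of_pos (by norm_num : (0 : ℝ) < 4)] at h6
      have := h5.trans_le (min_le_right _ _)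
      linarith
    · have := h5.trans_le (min_le_left _ _)
      linarith
  have hall : ∀ k : ℕ, min (c k) V = min (c 0) V := by
    intro k
    induction k with
    | zero => simp
    | succ k ih =>
      rw [← ih]
      have := hadj ((k : ℤ) + 1)
      rw [add_sub_cancel_right] at this
      push_cast
      exact this
  have hsum : ∑ k ∈ range n, c (k : ℤ) = L := by
    have h1 : Tendsto (fun t => ∑ k ∈ range n, gap e t (k : ℤ)) atTop
        (𝓝 (∑ k ∈ range n, c (k : ℤ))) := tendsto_finsetSum _ (fun k _ => hc k)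
    simp only [gap_sum] at h1
    exact tendsto_nhds_unique h1 tendsto_const_nhds |>.symm ▸ rfl
  have hn0 : (0 : ℝ) < n := by exact_mod_cast hn
  have h0V : c 0 < V := by
    by_contra hcV
    push Not at hcV
    have h1 : ∀ k ∈ range n, V ≤ c (k : ℤ) := by
      intro k _
      have := hall k
      rw [min_eq_right hcV] at this
      exact min_eq_right_iff.1 this
    have h2 := Finset.card_nsmul_le_sum (range n) (fun k => c (k : ℤ)) V h1
    rw [hsum, Finset.card_range, nsmul_eq_mul] at h2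
    linarith
  have hcc : ∀ k : ℕ, c (k : ℤ) = c 0 := by
    intro k
    have := hall k
    rw [min_eq_left h0V.le] at this
    rcases le_total (c k) V with h | h
    · rwa [min_eq_left h] at this
    · rw [min_eq_right h] at this
      linarith
  have hc0 : c 0 = L / n := by
    rw [Finset.sum_congr rfl (fun k _ => hcc k), Finset.sum_const, Finset.card_range,
      nsmul_eq_mul] at hsum
    rw [eq_div_iff hn0.ne']
    linarith
  have hci : c i = L / n := by
    obtain ⟨k, hk⟩ := Int.eq_ofNat_of_zero_le (Int.emod_nonneg i hn'.ne')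
    rw [← hc0, ← hcc k, ← hk]
    refine tendsto_nhds_unique (hc i) ((hc (i % n)).congr (fun t => ?_))
    exact red (gap e t) n (gap_per e t) i
  rw [← hci]
  exact hc i

end dynamics

/-- **Approximate covering of the ring without common orientation is solvable in SSYNC.**
For every visibility range `V > 0` there is one algorithm (a map from snapshots to displacements,
used by all sensors whatever their orientation) such that for every number `n` of sensors, every
ring length `L < n V`, every minimal move `δ > 0`, and every SSYNC execution (arbitrary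
orientations, distinct initial points, arbitrary fair schedule, arbitrary early stops) no two
sensors ever collide and every gap tends to `L / n`; so for every `ε > 0` there is a time from
which on the sensors form an `ε`-approximate covering. -/
theorem result : ∀ V : ℝ, 0 < V → ∃ A : Set ℝ → ℝ, ∀ (n : ℕ) (L δ : ℝ), 2 ≤ n → 0 < δ →
    L / n < V → ∀ e : Execution n L V δ A,
      (∀ t, StrictMono (e.X t)) ∧
      (∀ i, Tendsto (fun t => e.X t (i + 1) - e.X t i) atTop (𝓝 (L / n))) ∧
      ∀ ε > 0, ∃ T, ∀ t ≥ T, ∀ i,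
        L / n - ε ≤ e.X t (i + 1) - e.X t i ∧ e.X t (i + 1) - e.X t i ≤ L / n + ε := by
  intro V hV
  refine ⟨alg V, fun n L δ hn2 hδ hL e => ?_⟩
  have hn : 0 < n := by omega
  have hn0 : (0 : ℝ) < n := by exact_mod_cast hn
  have hn' : (0 : ℤ) < n := by exact_mod_cast hn
  have hL' : L < n * V := by
    rw [div_lt_iff₀ hn0] at hL
    linarith
  refine ⟨mono e hV, gap_limit e hV hn hδ hL', fun ε hε => ?_⟩
  have h1 : ∀ᶠ t in atTop, ∀ k ∈ range n, |gap e t (k : ℤ) - L / n| ≤ ε := by
    rw [Filter.eventually_all_finset]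
    intro k _
    have h2 := (Metric.tendsto_nhds.1 (gap_limit e hV hn hδ hL' (k : ℤ))) ε hε
    filter_upwards [h2] with t ht
    rw [Real.dist_eq] at ht
    exact ht.le
  obtain ⟨T, hT⟩ := eventually_atTop.1 h1
  refine ⟨T, fun t ht i => ?_⟩
  obtain ⟨k, hk⟩ := Int.eq_ofNat_of_zero_le (Int.emod_nonneg i hn'.ne')
  have hk2 : k < n := by
    have := Int.emod_lt_of_pos i hn'
    omega
  have h3 := hT t ht k (Finset.mem_range.2 hk2)
  rw [← hk, red (gap e t) n (gap_per e t) i, abs_le] at h3
  change L / n - ε ≤ gap e t i ∧ gap e t i ≤ L / n + ε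
  constructor <;> linarith [h3.1, h3.2]

end Pool.Agent.Results.MP_5c423c_lc.SemiSynchronousRing
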